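import Pool.Agent.W2helper82.OA.All
import Pool.Agent.W2helper77.OM.All
import Pool.Agent.W2helper77.OM.Lim

/-!
# External perimeters of all macroscopic critical clusters at all scales, and box counts of the
# outer boundary of the scaling limits

Critical bond percolation on `ℤ²` in the box `Λ_n = {0, …, n}²`: `F` is the set of open edges,
uniformly distributed on the subsets of `Plain.edges n` (`Plain.prob`), `Plain.box n` is the set of
the vertices, `Plain.cluster F v` the cluster of `v`, `Plain.sqDist` the square of the Euclidean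
distance, and `Plain.Largest n F v` says that the cluster of `v` has the largest Euclidean diameter.
`IsTrace n F v c` says that `c` is the closed lattice path tracing the boundary of the unbounded
component of the complement of the cluster of `v`, scaled by `1 / n`.  `Curve` is the space of
curves, with the distance modulo increasing reparametrisation, `c.path : C(unitInterval, ℂ)` is a
parametrisation of `c`, and `lawOf n f` is the law of `f F` when all sets `F` of open edges of the
box are equally likely.  These definitions are those of the starting files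
`Pool/Agent/Results/MP_6bd702_pr/PerimeterExponent.lean` and `LimitCurves.lean` (see there); the
latter shows that weak limits exist along a subsequence of every sequence of scales.
-/

set_option autoImplicit false

namespace Pool.Agent.Results.MP_6bd702_pr.MacroscopicExternalPerimeters

open H342L H342T H342P MeasureTheory Filter Topology
open scoped ENNReal

/-- The square lattice without the vertices of the set `C`: nearest neighbours, both outside `C`. -/
def avoidGraph (C : Set (ℤ × ℤ)) : SimpleGraph (ℤ × ℤ) :=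
  SimpleGraph.fromRel (fun u w => (∃ e : Plain.Edge, Plain.fst e = u ∧ Plain.snd e = w) ∧
    u ∉ C ∧ w ∉ C)

/-- The vertex `w` of the cluster `C` of `v` is accessible: some lattice neighbour `p` of `w` is not
in `C` and is joined to a vertex `q` outside `Λ_n` by a lattice path (through open or closed edges)
which avoids `C`. -/
def Accessible (n : ℕ) (F : Finset Plain.Edge) (v w : ℤ × ℤ) : Prop :=
  w ∈ Plain.cluster F v ∧ ∃ (e : Plain.Edge) (p q : ℤ × ℤ),
    ((Plain.fst e = w ∧ Plain.snd e = p) ∨ (Plain.fst e = p ∧ Plain.snd e = w)) ∧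
    p ∉ Plain.cluster F v ∧ q ∉ Plain.box n ∧ (avoidGraph (Plain.cluster F v)).Reachable p q

open Classical in
/-- The set of the accessible vertices of the cluster of `v` in `Λ_n` (its external perimeter). -/
noncomputable def accessible (n : ℕ) (F : Finset Plain.Edge) (v : ℤ × ℤ) : Finset (ℤ × ℤ) :=
  (Plain.box n).filter (fun w => Accessible n F v w)

/-- The number of the squares `[m i, m (i + 1)) × [m j, m (j + 1))` which contain accessible
vertices of the cluster of `v`. -/
noncomputable def squares (m n : ℕ) (F : Finset Plain.Edge) (v : ℤ × ℤ) : ℕ :=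
  ((accessible n F v).image (fun w => (w.1 / (m : ℤ), w.2 / (m : ℤ)))).card

/-- The cluster of the vertex `v` of `Λ_n` has Euclidean diameter at least `ρ n`. -/
def Macroscopic (ρ : ℝ) (n : ℕ) (F : Finset Plain.Edge) (v : ℤ × ℤ) : Prop :=
  v ∈ Plain.box n ∧ ∃ a ∈ Plain.cluster F v, ∃ b ∈ Plain.cluster F v,
    (ρ * n) ^ 2 ≤ (Plain.sqDist a b : ℝ)

/-- The external perimeter of the cluster of `v` has between `c n ^ (4/3)` and `C n ^ (4/3)`
vertices, and at every scale `1 ≤ m ≤ n` it meets between `c (n / m) ^ (4/3 - ε)` and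
`C (n / m) ^ (4/3 + ε)` squares of side `m`. -/
def Bounds (c C ε : ℝ) (n : ℕ) (F : Finset Plain.Edge) (v : ℤ × ℤ) : Prop :=
  (c * (n : ℝ) ^ (4 / 3 : ℝ) ≤ ((accessible n F v).card : ℝ) ∧
    ((accessible n F v).card : ℝ) ≤ C * (n : ℝ) ^ (4 / 3 : ℝ)) ∧
  ∀ m : ℕ, 1 ≤ m → m ≤ n → c * ((n : ℝ) / m) ^ (4 / 3 - ε) ≤ (squares m n F v : ℝ) ∧
    (squares m n F v : ℝ) ≤ C * ((n : ℝ) / m) ^ (4 / 3 + ε)

/-- The closed square of side `r` with the lower left corner `(q.1 r, q.2 r)`. -/
def cell (r : ℝ) (q : ℤ × ℤ) : Set ℂ :=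
  {z | (q.1 * r ≤ z.re ∧ z.re ≤ (q.1 + 1) * r) ∧ q.2 * r ≤ z.im ∧ z.im ≤ (q.2 + 1) * r}

/-- The number of the squares of side `r` of the grid `r ℤ²` which meet `K`. -/
noncomputable def count (r : ℝ) (K : Set ℂ) : ℕ := {q : ℤ × ℤ | (K ∩ cell r q).Nonempty}.ncard

/-- The unbounded component of the complement of `K`. -/
def unbounded (K : Set ℂ) : Set ℂ :=
  {z | z ∈ Kᶜ ∧ ¬ Bornology.IsBounded (connectedComponentIn Kᶜ z)}

/-- The outer boundary of the curve `c`: the boundary of the unbounded component of the complement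
of its trace. -/
def outer (c : Curve) : Set ℂ := frontier (unbounded (Set.range c.path))

/-- **Theorem.**  (1) For all `ρ, δ, ε > 0` there are `c, C > 0` and `n₀` such that, for all
`n ≥ n₀`, with probability at least `1 - δ` all clusters of `Λ_n` of diameter at least `ρ n` satisfy
`Bounds c C ε`.
(2) For all `δ, ε > 0` there are `c, C > 0` and `n₀` such that, for all `n ≥ n₀`, with probability at
least `1 - δ` all clusters of largest diameter in `Λ_n` satisfy `Bounds c C ε`.
(3) For every `ε > 0` the probability that every cluster of largest diameter in `Λ_n` has more than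
`n ^ (4/3 - ε)` and less than `n ^ (4/3 + ε)` accessible vertices tends to one.
(4) Let `C_n` be a cluster of largest diameter in `Λ_n` (`sel` chooses one of them, by any rule) and
`γ_n` the closed lattice path tracing its outer perimeter, divided by `n`.  If the law of `γ_n`
converges to `μ` along some sequence of scales, then, for `μ`-almost every curve, the box-counting
(Minkowski) dimension of its outer boundary exists and is `4/3`. -/
theorem result :
    (∀ ρ δ ε : ℝ, 0 < ρ → 0 < δ → 0 < ε → ∃ (c C : ℝ) (n₀ : ℕ), 0 < c ∧ 0 < C ∧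
      ∀ n : ℕ, n₀ ≤ n → 1 - δ ≤ Plain.prob n (fun F => ∀ v, Macroscopic ρ n F v →
        Bounds c C ε n F v)) ∧
    (∀ δ ε : ℝ, 0 < δ → 0 < ε → ∃ (c C : ℝ) (n₀ : ℕ), 0 < c ∧ 0 < C ∧
      ∀ n : ℕ, n₀ ≤ n → 1 - δ ≤ Plain.prob n (fun F => ∀ v, Plain.Largest n F v →
        Bounds c C ε n F v)) ∧
    (∀ ε : ℝ, 0 < ε → Tendsto (fun n : ℕ => Plain.prob n (fun F => ∀ v, Plain.Largest n F v →
      (n : ℝ) ^ (4 / 3 - ε) < ((accessible n F v).card : ℝ) ∧
        ((accessible n F v).card : ℝ) < (n : ℝ) ^ (4 / 3 + ε))) atTop (𝓝 1)) ∧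
    ∀ (sel : (n : ℕ) → Finset Plain.Edge → ℤ × ℤ)
      (_ : ∀ n F, 0 < n → F ⊆ Plain.edges n → Plain.Largest n F (sel n F))
      (γ : (n : ℕ) → Finset Plain.Edge → Curve)
      (_ : ∀ n F, 0 < n → F ⊆ Plain.edges n → IsTrace n F (sel n F) (γ n F))
      (k : ℕ → ℕ) (_ : Tendsto k atTop atTop) (μ : ProbabilityMeasure Curve)
      (_ : Tendsto (fun i => lawOf (k i) (γ (k i))) atTop (𝓝 μ)),
      ∀ᵐ c : Curve ∂(μ : Measure Curve),
        Tendsto (fun r : ℝ => Real.log (count r (outer c)) / Real.log (1 / r)) (𝓝[>] 0)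
          (𝓝 (4 / 3)) := by
  have h2 : ∀ δ ε : ℝ, 0 < δ → 0 < ε → ∃ (c C : ℝ) (n₀ : ℕ), 0 < c ∧ 0 < C ∧
      ∀ n : ℕ, n₀ ≤ n → 1 - δ ≤ Plain.prob n (fun F => ∀ v, Plain.Largest n F v →
        Bounds c C ε n F v) := by
    intro δ ε hδ hε
    obtain ⟨c, C, n0, hc, hC, h⟩ :=
      Pool.Agent.W2helper77.OM.largest_all Pool.Agent.W2helper82.OA.a_finl hδ hε
    exact ⟨c, C, n0, hc, hC, fun n hn => Pool.Agent.W2helper77.OM.prob_of (h n hn)⟩
  refine ⟨?_, h2, ?_, ?_⟩
  · intro ρ δ ε hρ hδ hε
    obtain ⟨c, C, n0, hc, hC, h⟩ :=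
      Pool.Agent.W2helper77.OM.mac_all Pool.Agent.W2helper82.OA.a_finl hρ hδ hε
    exact ⟨c, C, n0, hc, hC, fun n hn => Pool.Agent.W2helper77.OM.prob_of (h n hn)⟩
  · intro ε hε
    exact Pool.Agent.W2helper77.OM.tends hε h2
  · intro sel hsel γ hγ k hk μ hμ
    filter_upwards [Pool.Agent.W2helper77.OM.lim_mink Pool.Agent.W2helper82.OA.a_finl
      ⟨hsel, hγ⟩ hk hμ] with c hc
    exact hc.2

end Pool.Agent.Results.MP_6bd702_pr.MacroscopicExternalPerimeters
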