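import Pool.Agent.W2helper82.OA.All

/-!
# Claim 3 for all subsequential limits: the outer boundary has dimension `4/3` almost surely

Critical bond percolation on `ℤ²` in the box `Λ_n = {0, …, n}²`.  `Plain.edges n` is the set of the
edges of `Λ_n` and `Plain.Largest n F v` says that the cluster of `v` has the largest Euclidean
diameter among the clusters of the configuration `F` (a set of open edges of the box).
`IsTrace n F v c` says that `c` is the closed lattice path tracing the boundary of the unbounded
component of the complement of the cluster of `v`, scaled by `1 / n`.  `Curve` is the space of
curves, with the distance modulo increasing reparametrisation, `c.path : C(unitInterval, ℂ)` is a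
parametrisation of `c`, and `lawOf n f` is the law of `f F` when all sets `F` of open edges of the
box are equally likely.  These definitions are those of the starting file
`Pool/Agent/Results/MP_6bd702_pr/LimitCurves.lean` (see there), which shows that weak limits exist
along a subsequence of every sequence of scales.

Upper bound: three-arm probabilities (`W2helper75/OB/Up.lean`).  Lower bound (project OA, helper82,
with parts by helpers 17, 20, 28, 56, 64, 71, 75, 89, 92, 93): let `z` be the lexicographically
least vertex of a cluster of macroscopic extent.  Given the cluster, at most scales the clusters
attached to the smaller vertices do not come close to certain regions to the right of `z`; given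
these clusters, the event that `z` is joined to a large distance is increasing in the remaining
edges, and at each such scale Harris' inequality shows that with conditional probability bounded
below the cluster has there many vertices with thick paths to the outside and bounded energy.
-/

set_option autoImplicit false

namespace Pool.Agent.Results.MP_6bd702_pr.OuterBoundaryAlmostSure

open H342L H342T H342P.Plain MeasureTheory Filter Topology
open scoped ENNReal

/-- The unbounded component of the complement of `K`. -/
def unbounded (K : Set ℂ) : Set ℂ :=
  {z | z ∈ Kᶜ ∧ ¬ Bornology.IsBounded (connectedComponentIn Kᶜ z)}

/-- The outer boundary of the curve `c`: the boundary of the unbounded component of the complement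
of its trace. -/
def outer (c : Curve) : Set ℂ := frontier (unbounded (Set.range c.path))

/-- **Theorem.**  Let `C_n` be a cluster of largest Euclidean diameter in `Λ_n` (`sel` chooses one
of them, by any rule) and `γ_n` the closed lattice path tracing its outer perimeter, divided by `n`.
If the law of `γ_n` converges to `μ` along some sequence of scales, then `μ`-almost surely the outer
boundary of the limit curve has Hausdorff dimension `4/3`. -/
theorem result (sel : (n : ℕ) → Finset Edge → ℤ × ℤ)
    (_ : ∀ n F, 0 < n → F ⊆ edges n → Largest n F (sel n F))
    (γ : (n : ℕ) → Finset Edge → Curve)
    (_ : ∀ n F, 0 < n → F ⊆ edges n → IsTrace n F (sel n F) (γ n F))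
    (k : ℕ → ℕ) (_ : Tendsto k atTop atTop) (μ : ProbabilityMeasure Curve)
    (_ : Tendsto (fun i => lawOf (k i) (γ (k i))) atTop (𝓝 μ)) :
    ∀ᵐ c : Curve ∂(μ : Measure Curve), dimH (outer c) = 4 / 3 :=
  Pool.Agent.W2helper82.OA.fin sel γ ⟨‹_›, ‹_›⟩ k ‹_› μ ‹_›

end Pool.Agent.Results.MP_6bd702_pr.OuterBoundaryAlmostSure
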