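import Pool.Agent.W2helper78.LT.Fin2
import Pool.Agent.W2helper78.LT.Det
import Pool.Agent.W2helper92.LT.NF
import Pool.Agent.W2helper92.LT.NB2
import Pool.Agent.W2helper93.LT.EVP
import Pool.Agent.W2helper54.LT.Sum
import Pool.Agent.W2helper54.LT.PS
import Pool.Agent.W2helper71.LT.OPTL
import Pool.Agent.W2helper71.LT.OPTU
import Pool.Agent.W2helper3.LT.EVL
import Pool.Agent.W2helper3.LT.CU
import Pool.Agent.W2helper95.LT78.SEP
import Pool.Agent.W2helper66.LT.WP
import Pool.Agent.Results.MP_6bd702_pr.PerimeterExponent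
import Pool.Agent.Results.MP_6bd702_pr.PerimeterTail

/-!
# The lower tail of the outer perimeter of the largest critical percolation cluster

Critical bond percolation on `ℤ²` in the box `Λ_n = {0, …, n}²`: `F` is the set of open edges,
uniformly distributed on the subsets of `edges n` (`Plain.prob`).  `Plain.Largest n F v` says that
the cluster of `v` has the largest Euclidean diameter, `Plain.perimeter F v` is the number of steps
of the closed lattice path which traces the boundary of the unbounded component of the complement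
of this cluster, and `Plain.perimeterEdges F v` is the number of different edges on it.  All these
definitions are in `Pool/Agent/H342R2/Per/Plain.lean`.  The law of a function of `F` is
`H342L.lawOf` (`Pool/Agent/H342R3/Lim/Law.lean`).
-/

set_option autoImplicit false

namespace Pool.Agent.Results.MP_6bd702_pr.PerimeterLowerTail

open H342P Filter Topology MeasureTheory

/-- The rate of the lower tail. -/
noncomputable def rate (n m : ℕ) : ℝ :=
  max (((n : ℝ) ^ (7/4 : ℝ) / m) ^ (8/13 : ℝ)) (((n : ℝ) / m) ^ 2)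

/-- The exact lower tail of the outer perimeter of the largest cluster.

(1) For all `n ≥ 1` and `1 ≤ m ≤ n ^ (7/4)` the perimeter is at most `m` with probability
`exp (- Θ (rate n m))`, `rate n m = max ((n ^ (7/4) / m) ^ (8/13)) ((n / m) ^ 2)`.
(2) In particular it is at most `x * n ^ (7/4)` with probability `exp (- Θ (x ^ (-8/13)))`,
uniformly in `n`, for `n ^ (-13/12) ≤ x ≤ 1`.
(3) For `0 < ε ≤ 13/12` the probability that the perimeter is not in
`(n ^ (7/4 - ε), n ^ (7/4 + ε))` is `exp (- Θ (n ^ (8 ε / 13)))`.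
(4) Every subsequential limit in law of `perimeter / n ^ (7/4)` has the lower tail of (2). -/
theorem result : ∃ c C : ℝ, 0 < c ∧ 0 < C ∧
    (∀ n m : ℕ, 1 ≤ n → 1 ≤ m → (m : ℝ) ≤ (n : ℝ) ^ (7/4 : ℝ) →
      Real.exp (-(C * rate n m)) ≤
        Plain.prob n (fun F => ∀ v, Plain.Largest n F v → Plain.perimeter F v ≤ m) ∧
      Plain.prob n (fun F => ∃ v, Plain.Largest n F v ∧ Plain.perimeterEdges F v ≤ m) ≤
        C * Real.exp (-(c * rate n m))) ∧
    (∀ n : ℕ, 1 ≤ n → ∀ x : ℝ, (n : ℝ) ^ (-(13/12) : ℝ) ≤ x → x ≤ 1 →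
      Real.exp (-(C * x ^ (-(8/13) : ℝ))) ≤ Plain.prob n (fun F => ∀ v, Plain.Largest n F v →
        (Plain.perimeter F v : ℝ) ≤ x * (n : ℝ) ^ (7/4 : ℝ)) ∧
      Plain.prob n (fun F => ∃ v, Plain.Largest n F v ∧
        (Plain.perimeterEdges F v : ℝ) ≤ x * (n : ℝ) ^ (7/4 : ℝ)) ≤
        C * Real.exp (-(c * x ^ (-(8/13) : ℝ)))) ∧
    (∀ n : ℕ, 1 ≤ n → ∀ ε : ℝ, 0 < ε → ε ≤ 13/12 →
      Real.exp (-(C * (n : ℝ) ^ (8 * ε / 13))) ≤
        Plain.prob n (fun F => ∀ v, Plain.Largest n F v →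
          (Plain.perimeter F v : ℝ) ≤ (n : ℝ) ^ (7/4 - ε : ℝ)) ∧
      Plain.prob n (fun F => ∃ v, Plain.Largest n F v ∧
          ((Plain.perimeterEdges F v : ℝ) ≤ (n : ℝ) ^ (7/4 - ε : ℝ) ∨
            (n : ℝ) ^ (7/4 + ε : ℝ) ≤ (Plain.perimeter F v : ℝ))) ≤
        C * Real.exp (-(c * (n : ℝ) ^ (8 * ε / 13)))) ∧
    (∀ sel : ℕ → Finset Plain.Edge → ℤ × ℤ, (∀ n F, Plain.Largest n F (sel n F)) →
      ∀ φ : ℕ → ℕ, Tendsto φ atTop atTop → ∀ μ : ProbabilityMeasure ℝ,
      Tendsto (fun i => H342L.lawOf (φ i) fun F =>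
        (Plain.perimeter F (sel (φ i) F) : ℝ) / (φ i : ℝ) ^ (7/4 : ℝ)) atTop (𝓝 μ) →
      ∀ x : ℝ, 0 < x → x ≤ 1 →
        ENNReal.ofReal (Real.exp (-(C * x ^ (-(8/13) : ℝ)))) ≤ (μ : Measure ℝ) {y | y ≤ x} ∧
        (μ : Measure ℝ) {y | y ≤ x} ≤
          ENNReal.ofReal (C * Real.exp (-(c * x ^ (-(8/13) : ℝ))))) := by
  obtain ⟨⟨c0, hc0, hL0⟩, C0, hC0, hU0⟩ := PerimeterExponent.inputs
  obtain ⟨c2, C2, hc2, hC2, ht, -⟩ := PerimeterTail.result
  exact W78LT.final
    (W78LT.upp Pool.Agent.W2helper92.LT.nb2 W66LT.wp Pool.Agent.W2helper3.LT.cu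
      W78LT.orbd W78LT.det Pool.Agent.W2helper71.LT.optu hc0 hC0 hL0 hU0)
    (W78LT.lwr (W78LT.asm Pool.Agent.W2helper92.LT.nf Pool.Agent.W2helper92.LT.nl
      Pool.Agent.W2helper3.LT.evl W78LT.evp Pool.Agent.W2helper95.LT78.sep
      Pool.Agent.W2helper54.LT.ps Pool.Agent.W2helper54.LT.sum hC0 hU0)
      Pool.Agent.W2helper71.LT.optl) hc2 hC2
    (fun n hn x hx => (ht n hn).2.1 x hx)

end Pool.Agent.Results.MP_6bd702_pr.PerimeterLowerTail
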